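import Pool.Agent.Work.MP_f82ddf_E.All
import Pool.Agent.Work.MP_f82ddf_E.Sel

/-!
# One exceptional set for all the varieties with a morphism to projective space which is ramified
with multiplicities at least `k` over many hyperplanes, its dimension, and half of Lang's equivalence
-/

open MvPolynomial
open Pool.Agent.Work.MP_f82ddf_nt

namespace Pool.Agent.Results.MP_f82ddf_nt.DualDimension

/-- `v` is a point, with coordinates in the algebraic closure of `K`, of the affine cone over the
projective variety `X` given by `S`. -/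
def OnX {K : Type} [Field K] {m : ℕ} (S : Set (MvPolynomial (Fin (m + 1)) K))
    (v : Fin (m + 1) → AlgebraicClosure K) : Prop :=
  ∀ F ∈ S, aeval v F = 0

/-- A morphism, defined over the algebraic closure of `K`, from the projective variety `X` given by
`S` to the projective space of dimension `n`: a set of tuples of forms, the forms of a tuple having
the same degree, such that any two tuples are proportional at every point of `X` and at every point
of `X` one of the tuples is not zero. -/
structure Mor (K : Type) [Field K] (m n : ℕ) (S : Set (MvPolynomial (Fin (m + 1)) K)) where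
  tuples : Set (Fin (n + 1) → MvPolynomial (Fin (m + 1)) (AlgebraicClosure K))
  homogeneous : ∀ s ∈ tuples, ∃ e, ∀ c, (s c).IsHomogeneous e
  compatible : ∀ s ∈ tuples, ∀ t ∈ tuples, ∀ v : Fin (m + 1) → AlgebraicClosure K, OnX S v →
    ∀ c d, eval v (s c) * eval v (t d) = eval v (s d) * eval v (t c)
  defined : ∀ v : Fin (m + 1) → AlgebraicClosure K, v ≠ 0 → OnX S v →
    ∃ s ∈ tuples, ∃ c, eval v (s c) ≠ 0

section

variable {K : Type} [Field K] {m n : ℕ} {S : Set (MvPolynomial (Fin (m + 1)) K)}

/-- The morphism `g` has finite fibres (so it is a finite morphism, `X` being projective): for every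
point `w` of the projective space there are only finitely many points of `X` mapped to `w`. -/
def Mor.Finite (g : Mor K m n S) : Prop :=
  ∀ w : Fin (n + 1) → AlgebraicClosure K, w ≠ 0 →
    {P : PSpace (AlgebraicClosure K) m | OnX S P.rep ∧ ∀ s ∈ g.tuples, ∀ c d,
      eval P.rep (s c) * w d = eval P.rep (s d) * w c}.Finite

/-- The pull back under `g` of the hyperplane `∑ c, l c * y c = 0` has only multiplicities at least
`k`: near every point `v` of `X` it is, up to a unit, a product of powers with exponents at least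
`k`.  For some tuple `s` of `g`, not zero at `v`, and forms `a`, `b i`, with `a` not zero at `v`, the
equation `a * ∑ c, l c * s c = ∏ i, b i ^ μ i`, `k ≤ μ i`, holds on `X`.  If `X` is smooth, this
means that all the components of the divisor `g ^ *` of the hyperplane have multiplicity at least
`k`. -/
def Mor.MultGE (g : Mor K m n S) (k : ℕ) (l : Fin (n + 1) → AlgebraicClosure K) : Prop :=
  ∀ v : Fin (m + 1) → AlgebraicClosure K, v ≠ 0 → OnX S v →
    ∃ s ∈ g.tuples, (∃ c, eval v (s c) ≠ 0) ∧
      ∃ (d t : ℕ) (a : MvPolynomial (Fin (m + 1)) (AlgebraicClosure K))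
        (b : Fin t → MvPolynomial (Fin (m + 1)) (AlgebraicClosure K))
        (e μ : Fin t → ℕ), a.IsHomogeneous d ∧ (∀ i, (b i).IsHomogeneous (e i)) ∧
        (∀ i, k ≤ μ i) ∧ eval v a ≠ 0 ∧
        ∀ u, OnX S u → eval u a * ∑ c, l c * eval u (s c) = ∏ i, eval u (b i) ^ μ i

/-- The complex points `P` of `X_τ` such that the coordinates `y` of `g(P)` satisfy all the equations
`D s (y (s 0), .., y (s (d + 1))) = 0`, one for each choice `s` of `d + 2` of the coordinates: the
inverse image under `g` of a closed subset of dimension at most `d`. -/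
def Mor.Exc (g : Mor K m n S) {d : ℕ}
    (D : (Fin (d + 2) ↪ Fin (n + 1)) → MvPolynomial (Fin (d + 2)) (AlgebraicClosure K))
    (τ : AlgebraicClosure K →+* ℂ) : Set (PSpace ℂ m) :=
  {P | P ∈ complexPoints S (τ.comp (algebraMap K (AlgebraicClosure K))) ∧
    ∀ y ∈ g.tuples, ∀ s, eval₂ τ (fun i => eval₂ τ P.rep (y (s i))) (D s) = 0}

/-- The curve `f` in `X_τ` is contained in a fibre of `g`. -/
def Mor.InFibre (g : Mor K m n S) (τ : AlgebraicClosure K →+* ℂ) (f : ℂ → PSpace ℂ m) : Prop :=
  ∃ w : Fin (n + 1) → ℂ, w ≠ 0 ∧ ∀ z, ∀ s ∈ g.tuples, ∀ c d,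
    eval₂ τ (f z).rep (s c) * w d = eval₂ τ (f z).rep (s d) * w c

end

/-- The hyperplanes `l 0, .., l N` are spread over a set of dimension at least `w` of the dual
projective space, up to the degree `δ`: every closed subset of dimension less than `w` of the dual
space (there are `w` linear forms `h i` without common zero on it) which is given by forms of degree
at most `e`, `e ≤ δ`, contains at most `B e` of the points `l j`. -/
def Spread {K : Type} [Field K] {n N : ℕ} (w δ : ℕ) (B : ℕ → ℕ)
    (l : Fin (N + 1) → Fin (n + 1) → AlgebraicClosure K) : Prop :=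
  ∀ e : ℕ, e ≤ δ → ∀ (E : Set (MvPolynomial (Fin (n + 1)) (AlgebraicClosure K)))
    (h : Fin w → Fin (n + 1) → AlgebraicClosure K),
    (∀ F ∈ E, ∃ e' ≤ e, F.IsHomogeneous e') →
    (∀ v : Fin (n + 1) → AlgebraicClosure K, v ≠ 0 → (∀ F ∈ E, eval v F = 0) →
      ∃ i, ∑ c, h i c * v c ≠ 0) →
    {j | ∀ F ∈ E, eval (l j) F = 0}.ncard ≤ B e

/-- The Zariski closure of the image of `f` in projective space has dimension at most `d`: any
`d + 2` of the homogeneous coordinates satisfy on the image a nontrivial homogeneous relation. -/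
def ImageDimLE {m : ℕ} (f : ℂ → PSpace ℂ m) (d : ℕ) : Prop :=
  ∀ s : Fin (d + 2) → Fin (m + 1), ∃ (e : ℕ) (P : MvPolynomial (Fin (d + 2)) ℂ),
    P ≠ 0 ∧ P.IsHomogeneous e ∧ ∀ z, eval (fun i => (f z).rep (s i)) P = 0

/-- `(s, w)` is a point of the plane cubic `w ^ 2 = s ^ 3 + a * s + b`. -/
def OnCubic {k : Type*} [Field k] (a b s w : k) : Prop := w ^ 2 = s ^ 3 + a * s + b

/-- The value at `(s, w)` of the vector of functions `p i (s) + q i (s) * w`. -/
noncomputable def cubicVal {k : Type*} [Field k] {m : ℕ} (p q : Fin (m + 1) → Polynomial k)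
    (s w : k) : Fin (m + 1) → k := fun i => (p i).eval s + (q i).eval s * w

/-- The projective variety given by `S` contains, over the algebraic closure of `K`, the image of a
plane cubic `w ^ 2 = s ^ 3 + a * s + b` (possibly singular) under a nonconstant map
`(s, w) ↦ [p 0 (s) + q 0 (s) * w : ⋯ : p m (s) + q m (s) * w]`.  Every curve of geometric genus 0
or 1 in it over the algebraic closure is such an image. -/
def CubicImage {K : Type*} [Field K] {m : ℕ} (S : Set (MvPolynomial (Fin (m + 1)) K)) : Prop :=
  ∃ (a b : AlgebraicClosure K) (p q : Fin (m + 1) → Polynomial (AlgebraicClosure K)),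
    (∀ F ∈ S, ∀ s w, OnCubic a b s w → aeval (cubicVal p q s w) F = 0) ∧
    ∃ (i j : Fin (m + 1)) (s w s' w' : AlgebraicClosure K), OnCubic a b s w ∧ OnCubic a b s' w' ∧
      cubicVal p q s w i * cubicVal p q s' w' j ≠ cubicVal p q s w j * cubicVal p q s' w' i

/-- From `N + 1` hyperplanes, `2 ^ m * 2 * c ≤ N`, of which at most `c` pass through any point, one can
choose `m` of them of which at most `n` pass through any point. -/
theorem choose_hyperplanes {k : Type} [Field k] {n : ℕ} (hn : 1 ≤ n) (c N m : ℕ)
    (hN : 2 ^ m * 2 * c ≤ N) (l : Fin (N + 1) → Fin (n + 1) → k)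
    (hl : ∀ v : Fin (n + 1) → k, v ≠ 0 → {j | ∑ i, l j i * v i = 0}.ncard ≤ c) :
    ∃ φ : Fin m → Fin (N + 1), Function.Injective φ ∧
      ∀ v : Fin (n + 1) → k, v ≠ 0 → {j | ∑ i, l (φ j) i * v i = 0}.ncard ≤ n := by
  classical
  -- `c` is positive
  have hc : 1 ≤ c := by
    by_contra h0
    have h0' : c = 0 := by omega
    let ev0 : (Fin (n + 1) → k) →ₗ[k] k := ∑ i, (l 0 i) • LinearMap.proj i
    have hker : LinearMap.ker ev0 ≠ ⊥ := by
      intro hbot
      have h1 := LinearMap.finrank_range_add_finrank_ker ev0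
      rw [hbot, finrank_bot, Module.finrank_fin_fun] at h1
      have h2 : Module.finrank k (LinearMap.range ev0) ≤ 1 := by
        simpa using Submodule.finrank_le (LinearMap.range ev0)
      omega
    obtain ⟨v, hv, hv0⟩ := Submodule.exists_mem_ne_zero_of_ne_bot hker
    have h3 := hl v hv0
    rw [h0', Nat.le_zero, Set.ncard_eq_zero (Set.toFinite _)] at h3
    have h4 : (0 : Fin (N + 1)) ∈ {j | ∑ i, l j i * v i = 0} := by
      have : ev0 v = 0 := hv
      simpa [ev0, LinearMap.sum_apply] using this
    rw [h3] at h4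
    exact h4
  let ev : {v : Fin (n + 1) → k // v ≠ 0} → (Fin (n + 1) → k) →ₗ[k] k := fun v =>
    ∑ i, (v.1 i) • LinearMap.proj i
  have hev : ∀ v u, ev v u = ∑ i, u i * v.1 i := by
    intro v u
    simp [ev, LinearMap.sum_apply, mul_comm]
  obtain ⟨φ, hφ, h⟩ := Pool.MPSel.sel ev l c (fun x => by
    have := hl x.1 x.2
    simpa only [hev] using this) m (by
      rw [Fintype.card_fin]
      have h5 : 2 ^ m * (c + 1) ≤ 2 ^ m * (2 * c) := Nat.mul_le_mul_left _ (by omega)
      have h6 : 2 ^ m * (2 * c) = 2 ^ m * 2 * c := by ring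
      omega)
  refine ⟨φ, hφ, fun v hv => ?_⟩
  have := h ⟨v, hv⟩
  rw [Module.finrank_fin_fun] at this
  simp only [hev] at this
  omega

/-- FIRST PART.  For all `n ≥ 1` and all functions `B` there are numbers `N₀` and `δ` with the
following property.  Let `K` be a number field, `l 0, .., l N` hyperplanes in the
projective space of dimension `n` over the algebraic closure of `K`, of which at most `c` pass through
any point, where `c` is any number with `N ≥ N₀ * c` (so: no point lies on more than the `N₀`-th part of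
the hyperplanes), and `w ≥ 1`, `k ≥ 2`, `d ≥ 0` with `w + k + d = n + 2`.  If `w ≥ 2` assume that the
hyperplanes do not concentrate in dimension less than `w`: every closed subset of dimension less
than `w` of the dual space given by forms of degree at most `e`, `e ≤ δ`, contains at most `B e` of the
`l j` (remark, not proved here: general hyperplanes satisfy this for every `w ≤ n` and a suitable
function `B`).
There are nonzero forms `D s` in `d + 2` variables over the algebraic closure of `K`, one for each
choice `s` of `d + 2` of the `n + 1` coordinates (they define a closed subset `Z` of the projective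
space, of dimension at most `d = n + 2 - w - k`), such that for EVERY projective variety `X` over `K`
(given by the forms in `S`, singular or reducible ones included) with a morphism `g` to the
projective space for which the pull backs of all the hyperplanes `l j` have only multiplicities at
least `k`:
* for every embedding `τ` of the algebraic closure in the field of complex numbers every entire
  curve in `X_τ` is contained in `g⁻¹(Z)` or in a fibre of `g`;
* if `g` is finite, every nonconstant entire curve in `X_τ` is contained in `g⁻¹(Z)`, its Zariski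
  closure has dimension at most `d`, and `X_τ` is Kobayashi hyperbolic if and only if its closed subset
  `g⁻¹(Z)` is;
* if `g` is finite and `d = 0`, then `X_σ` is Kobayashi hyperbolic for every embedding `σ` of `K`;
* if `g` is finite and `d ≤ 1`, then for every `σ` the variety `X_σ` is Kobayashi hyperbolic if and
  only if `X` contains no nonconstant image of a plane cubic over the algebraic closure of `K`; and if
  `X(L)` is finite for every finite extension `L` of `K`, then `X_σ` is Kobayashi hyperbolic for
  every `σ`.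

SECOND PART: the dimension `d = n + 2 - w - k` of `Z` is the least possible.  For all `w ≥ 1`, `k ≥ 2`,
`d ≥ 1` with `w + k + d = n + 2` there is a function `B` such that for every `δ` and every number
`N + 1 > n` there are hyperplanes `l 0, .., l N` over the algebraic closure of the field of rational
numbers, at most `n` of them through any point, which do not concentrate in dimension less than `w`
as in the first part, a projective variety `X` over the field of rational numbers and a finite
morphism `g` as in the first part, such that no closed set given by nonzero forms `D s` in `d + 1`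
variables, one for each choice `s` of `d + 1` coordinates, contains the images of all the nonconstant
entire curves in `X_τ`. -/
theorem result (n : ℕ) (hn : 1 ≤ n) :
    (∀ B : ℕ → ℕ, ∃ N₀ δ : ℕ, ∀ c N : ℕ, N₀ * c ≤ N →
      ∀ (K : Type) [Field K] [NumberField K] (l : Fin (N + 1) → Fin (n + 1) → AlgebraicClosure K),
        (∀ v : Fin (n + 1) → AlgebraicClosure K, v ≠ 0 → {j | ∑ i, l j i * v i = 0}.ncard ≤ c) →
        ∀ w k d : ℕ, 1 ≤ w → 2 ≤ k → w + k + d = n + 2 → (2 ≤ w → Spread w δ B l) →
        ∃ D : (Fin (d + 2) ↪ Fin (n + 1)) → MvPolynomial (Fin (d + 2)) (AlgebraicClosure K),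
          (∀ s, D s ≠ 0 ∧ ∃ e, (D s).IsHomogeneous e) ∧
          ∀ (m : ℕ) (S : Set (MvPolynomial (Fin (m + 1)) K)),
            (∀ F ∈ S, ∃ e, F.IsHomogeneous e) →
            ∀ g : Mor K m n S, (∀ j, g.MultGE k (l j)) →
              (∀ (τ : AlgebraicClosure K →+* ℂ) (f : ℂ → PSpace ℂ m), HolomorphicOn f Set.univ →
                (∀ z, f z ∈ complexPoints S (τ.comp (algebraMap K (AlgebraicClosure K)))) →
                (∀ z, f z ∈ g.Exc D τ) ∨ g.InFibre τ f) ∧
              (g.Finite →
                (∀ τ : AlgebraicClosure K →+* ℂ,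
                  (∀ f : ℂ → PSpace ℂ m, HolomorphicOn f Set.univ →
                    (∀ z, f z ∈ complexPoints S (τ.comp (algebraMap K (AlgebraicClosure K)))) →
                    (∃ a b, f a ≠ f b) → (∀ z, f z ∈ g.Exc D τ) ∧ ImageDimLE f d) ∧
                  (KobayashiHyperbolic
                      (complexPoints S (τ.comp (algebraMap K (AlgebraicClosure K)))) ↔
                    KobayashiHyperbolic (g.Exc D τ))) ∧
                (d = 0 → ∀ σ : K →+* ℂ, KobayashiHyperbolic (complexPoints S σ)) ∧
                (d ≤ 1 →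
                  (∀ σ : K →+* ℂ, KobayashiHyperbolic (complexPoints S σ) ↔ ¬ CubicImage S) ∧
                  ((∀ (L : Type) [Field L] [Algebra K L] [FiniteDimensional K L],
                      (points S L).Finite) →
                    ∀ σ : K →+* ℂ, KobayashiHyperbolic (complexPoints S σ))))) ∧
    (∀ w k d : ℕ, 1 ≤ w → 2 ≤ k → w + k + (d + 1) = n + 2 → ∃ B : ℕ → ℕ, ∀ δ N : ℕ, n ≤ N →
      ∃ (S : Set (MvPolynomial (Fin (N + 1)) ℚ)) (g : Mor ℚ N n S)
        (l : Fin (N + 1) → Fin (n + 1) → AlgebraicClosure ℚ),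
        (∀ F ∈ S, ∃ e, F.IsHomogeneous e) ∧
        (∀ v : Fin (n + 1) → AlgebraicClosure ℚ, v ≠ 0 → {j | ∑ i, l j i * v i = 0}.ncard ≤ n) ∧
        Spread w δ B l ∧ g.Finite ∧ (∀ j, g.MultGE k (l j)) ∧
        ∀ D : (Fin (d + 2) ↪ Fin (n + 1)) → MvPolynomial (Fin (d + 2)) (AlgebraicClosure ℚ),
          (∀ s, D s ≠ 0 ∧ ∃ e, (D s).IsHomogeneous e) → ∀ τ : AlgebraicClosure ℚ →+* ℂ,
            ∃ f : ℂ → PSpace ℂ N, HolomorphicOn f Set.univ ∧
              (∀ z, f z ∈ complexPoints S (τ.comp (algebraMap ℚ (AlgebraicClosure ℚ)))) ∧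
              (∃ a b, f a ≠ f b) ∧ ∃ z, f z ∉ g.Exc D τ) := by
  refine ⟨fun B => ?_, fun w k d hw hk hwk => ?_⟩
  · obtain ⟨N₁, δ₁, h1⟩ := Pool.MPE.all_E1 n n B hn
    obtain ⟨N₂, δ₂, h2⟩ := Pool.MPE.all_E2 n n B hn
    refine ⟨2 ^ (max N₁ N₂ + 1) * 2, max δ₁ δ₂,
      fun c N hN K _ _ l' hl' w k d hw hk hwk hSp' => ?_⟩
    obtain ⟨φ, hφ, hl⟩ := choose_hyperplanes (k := AlgebraicClosure K) hn c N (max N₁ N₂ + 1)
      hN l' hl'
    let l : Fin (max N₁ N₂ + 1) → Fin (n + 1) → AlgebraicClosure K := fun i => l' (φ i)
    have hSp : 2 ≤ w → Spread w (max δ₁ δ₂) B l := fun h2w e he E h hE hh =>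
      (Set.ncard_le_ncard_of_injOn φ (fun j hj => hj) hφ.injOn (Set.toFinite _)).trans
        (hSp' h2w e he E h hE hh)
    have hSp1 : 2 ≤ w → Pool.MPE.NodesW w δ₁ B l := fun h2w e he =>
      hSp h2w e (he.trans (le_max_left _ _))
    have hSp2 : 2 ≤ w → Pool.MPE.NodesW w δ₂ B l := fun h2w e he =>
      hSp h2w e (he.trans (le_max_right _ _))
    obtain ⟨q, hq⟩ : ∃ q, w + k = q + 3 := ⟨w + k - 3, by omega⟩
    obtain ⟨D, hD, hD'⟩ := h1 _ (le_max_left _ _) K l hl w k (d + 1) q hk (by omega)
      hq (by omega) hSp1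
    refine ⟨D, hD, fun m S hS g hm => ?_⟩
    let g' : Pool.ThmP.Mor K (AlgebraicClosure K) m n S :=
      ⟨g.tuples, g.homogeneous, g.compatible, g.defined⟩
    have hm' : ∀ j, Pool.MPV.Full g' k (l j) := fun j => hm (φ j)
    have hA := hD' m S hS g' hm'
    refine ⟨fun τ => (hA τ).1, fun hg => ?_⟩
    have hg' : g'.Finite := hg
    have hB := h2 _ (le_max_right _ _) K l hl w k (d + 1) q hk (by omega)
      hq (by omega) hSp2 m S hS g' hg' hm'
    refine ⟨fun τ => ⟨fun f hf hfX hne => ⟨((hA τ).2 hg').1 f hf hfX hne, ?_⟩, ((hA τ).2 hg').2⟩,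
      fun hd => ?_, fun hd => ?_⟩
    · exact hB.1 (τ.comp (algebraMap K (AlgebraicClosure K))) f hf hfX
    · exact hB.2.1 (by omega)
    · obtain ⟨h3, h4⟩ := hB.2.2 (by omega)
      refine ⟨h3, fun hL σ => (h3 σ).2 fun hC => ?_⟩
      obtain ⟨L, i1, i2, i3, hinf⟩ := h4 hC
      exact hinf (hL L)
  · obtain ⟨B, hB⟩ := Pool.MPE.all_ES n w k d hw hk (by omega)
    refine ⟨B, fun δ N hN => ?_⟩
    obtain ⟨S, g, l, hS, hl, hsp, hg, hm, hD⟩ := hB δ N hN
    exact ⟨S, ⟨g.tuples, g.homogeneous, g.compatible, g.defined⟩, l, hS, hl, hsp, hg, hm, hD⟩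

end Pool.Agent.Results.MP_f82ddf_nt.DualDimension
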