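import Pool.Agent.Work.MP_f82ddf_Y.All5

/-!
# Exceptional subvarieties of bounded degree for all the varieties with a morphism to a given variety `Y`
which is highly ramified over many hypersurface sections of `Y` of bounded degree, and half of Lang's
equivalence
-/

open MvPolynomial
open Pool.Agent.Work.MP_f82ddf_nt

namespace Pool.Agent.Results.MP_f82ddf_nt.ExceptionalSubvarieties

/-! ## Closed subsets of projective space and multiplicities -/

/-- The ideal `p` of the ring of polynomials in the homogeneous coordinates is homogeneous.  It defines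
a closed subset `V(p)` of the projective space; the irreducible closed subsets are given by the
homogeneous prime ideals (which do not contain all the coordinates). -/
def Hmg {F : Type} [CommRing F] {n : ℕ} (p : Ideal (MvPolynomial (Fin (n + 1)) F)) : Prop :=
  ∀ G ∈ p, ∀ e, homogeneousComponent e G ∈ p

/-- `G` has small multiplicities on `V(p)`: for every irreducible component of the intersection of
`V(p)` and the hypersurface `G = 0`, given by the prime ideal `q`, the closed set `V(p)` is regular at
the generic point of this component (the maximal ideal of the local ring is generated by `t`; the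
component is of codimension 1), and the multiplicity of `G` along the component is less than `k` (`G` is
not in the ideal of the local ring generated by `t ^ k`).  Everything refers to the affine cone over
`V(p)`; if `V(p)` is not a point, the components of the intersection of `G = 0` and this cone are the
cones over the components of the intersection of `G = 0` and `V(p)`. -/
def SmallMult {F : Type} [Field F] {n : ℕ} (k : ℕ) (p : Ideal (MvPolynomial (Fin (n + 1)) F))
    (G : MvPolynomial (Fin (n + 1)) F) : Prop :=
  ∀ q ∈ (p ⊔ Ideal.span {G}).minimalPrimes, ∃ t ∈ q,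
    (∀ f ∈ q, ∃ h ∉ q, h * f ∈ p ⊔ Ideal.span {t}) ∧ ∀ h ∉ q, h * G ∉ p ⊔ Ideal.span {t ^ k}

/-- `V(p)` is obtained from a component of `V(p₀)` by repeatedly replacing a closed set `V` by a component
of `V ∩ (D = 0)`, `D` a form of degree at most `δ` which is not zero on `V`: `V(q 0)` is a component of
`V(p₀)`, `V(q (i + 1))` is a component of `V(q i) ∩ (D = 0)`, and `q r = p`.  (The dimension drops by 1 in
every step, so by Bezout's theorem the degree of `V(p)` is at most `δ ^ n` times the degree of `V(p₀)`, if
`δ ≥ 1`.) -/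
def BySections {F : Type} [Field F] {n : ℕ} (δ : ℕ)
    (p₀ p : Ideal (MvPolynomial (Fin (n + 1)) F)) : Prop :=
  ∃ (r : ℕ) (q : ℕ → Ideal (MvPolynomial (Fin (n + 1)) F)), q 0 ∈ p₀.minimalPrimes ∧ q r = p ∧
    ∀ i < r, ∃ (e : ℕ) (D : MvPolynomial (Fin (n + 1)) F), e ≤ δ ∧ D.IsHomogeneous e ∧ D ∉ q i ∧
      q (i + 1) ∈ (q i ⊔ Ideal.span {D}).minimalPrimes

/-- The closed subset of the projective space with the affine cone `Z` has dimension at most `d`: any
`d + 2` of the homogeneous coordinates satisfy a homogeneous relation on it. -/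
def DimLE {F : Type} [Field F] {m : ℕ} (Z : Set (Fin (m + 1) → F)) (d : ℕ) : Prop :=
  ∀ r : Fin (d + 2) → Fin (m + 1), ∃ (e : ℕ) (R : MvPolynomial (Fin (d + 2)) F),
    R ≠ 0 ∧ R.IsHomogeneous e ∧ ∀ v ∈ Z, eval (fun i => v (r i)) R = 0

/-- The closed subset `V(p)` contains two different points. -/
def TwoPoints {F : Type} [Field F] {n : ℕ} (p : Ideal (MvPolynomial (Fin (n + 1)) F)) : Prop :=
  ∃ z w : Fin (n + 1) → F, (∀ G ∈ p, eval z G = 0) ∧ (∀ G ∈ p, eval w G = 0) ∧
    ∃ i j, z i * w j ≠ z j * w i

/-! ## Morphisms -/

/-- `v` is a point, with coordinates in the algebraic closure of `K`, of the affine cone over the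
projective variety `X` given by `S`. -/
def OnX {K : Type} [Field K] {m : ℕ} (S : Set (MvPolynomial (Fin (m + 1)) K))
    (v : Fin (m + 1) → AlgebraicClosure K) : Prop :=
  ∀ F ∈ S, aeval v F = 0

/-- A morphism, defined over the algebraic closure of `K`, from the projective variety `X` given by
`S` to the projective space of dimension `n`: a set of tuples of forms, the forms of a tuple having
the same degree, such that any two tuples are proportional at every point of `X` and at every point
of `X` one of the tuples is not zero. -/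
structure Mor (K : Type) [Field K] (m n : ℕ) (S : Set (MvPolynomial (Fin (m + 1)) K)) where
  tuples : Set (Fin (n + 1) → MvPolynomial (Fin (m + 1)) (AlgebraicClosure K))
  homogeneous : ∀ s ∈ tuples, ∃ e, ∀ c, (s c).IsHomogeneous e
  compatible : ∀ s ∈ tuples, ∀ t ∈ tuples, ∀ v : Fin (m + 1) → AlgebraicClosure K, OnX S v →
    ∀ c d, eval v (s c) * eval v (t d) = eval v (s d) * eval v (t c)
  defined : ∀ v : Fin (m + 1) → AlgebraicClosure K, v ≠ 0 → OnX S v →
    ∃ s ∈ tuples, ∃ c, eval v (s c) ≠ 0

section

variable {K : Type} [Field K] {m n : ℕ} {S : Set (MvPolynomial (Fin (m + 1)) K)}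

/-- The morphism `g` maps `X` to the closed subset `V(p)`. -/
def Mor.Into (g : Mor K m n S) (p : Ideal (MvPolynomial (Fin (n + 1)) (AlgebraicClosure K))) :
    Prop :=
  ∀ v : Fin (m + 1) → AlgebraicClosure K, OnX S v →
    ∀ s ∈ g.tuples, ∀ G ∈ p, eval (fun c => eval v (s c)) G = 0

/-- The morphism `g` has finite fibres (so it is a finite morphism, `X` being projective): for every
point `w` of the projective space there are only finitely many points of `X` mapped to `w`. -/
def Mor.Finite (g : Mor K m n S) : Prop :=
  ∀ w : Fin (n + 1) → AlgebraicClosure K, w ≠ 0 →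
    {P : PSpace (AlgebraicClosure K) m | OnX S P.rep ∧ ∀ s ∈ g.tuples, ∀ c d,
      eval P.rep (s c) * w d = eval P.rep (s d) * w c}.Finite

/-- The pull back under `g` of the hypersurface `F = 0` has only multiplicities at least `k`: near
every point `v` of `X` it is, up to a unit, a product of powers with exponents at least `k`.  For
some tuple `s` of `g`, not zero at `v`, and forms `a`, `b i`, with `a` not zero at `v`, the equation
`a * F (s 0, .., s n) = ∏ i, b i ^ μ i`, `k ≤ μ i`, holds on `X`.  If `X` is smooth, this means that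
all the components of the divisor `g ^ * (F = 0)` have multiplicity at least `k`. -/
def Mor.MultGE (g : Mor K m n S) (k : ℕ) (F : MvPolynomial (Fin (n + 1)) (AlgebraicClosure K)) :
    Prop :=
  ∀ v : Fin (m + 1) → AlgebraicClosure K, v ≠ 0 → OnX S v →
    ∃ s ∈ g.tuples, (∃ c, eval v (s c) ≠ 0) ∧
      ∃ (d t : ℕ) (a : MvPolynomial (Fin (m + 1)) (AlgebraicClosure K))
        (b : Fin t → MvPolynomial (Fin (m + 1)) (AlgebraicClosure K))
        (e μ : Fin t → ℕ), a.IsHomogeneous d ∧ (∀ i, (b i).IsHomogeneous (e i)) ∧
        (∀ i, k ≤ μ i) ∧ eval v a ≠ 0 ∧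
        ∀ u, OnX S u → eval u a * eval (fun c => eval u (s c)) F = ∏ i, eval u (b i) ^ μ i

/-- The affine cone over the inverse image of `V(p)` under `g`. -/
def Mor.Pre (g : Mor K m n S) (p : Ideal (MvPolynomial (Fin (n + 1)) (AlgebraicClosure K))) :
    Set (Fin (m + 1) → AlgebraicClosure K) :=
  {v | OnX S v ∧ ∀ s ∈ g.tuples, ∀ G ∈ p, eval (fun c => eval v (s c)) G = 0}

/-- The affine cone over the fibre of `g_τ` over the point with the homogeneous coordinates `w`. -/
def Mor.Fibre (g : Mor K m n S) (τ : AlgebraicClosure K →+* ℂ) (w : Fin (n + 1) → ℂ) :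
    Set (Fin (m + 1) → ℂ) :=
  {v | (∀ G ∈ S, eval₂ (τ.comp (algebraMap K (AlgebraicClosure K))) v G = 0) ∧
    ∀ s ∈ g.tuples, ∀ c d, eval₂ τ v (s c) * w d = eval₂ τ v (s d) * w c}

/-- The inverse image of `V(p)` under `g_τ`: the set of the complex points of `X_τ` which are mapped to
`V(p)`. -/
def Mor.Exc (g : Mor K m n S) (p : Ideal (MvPolynomial (Fin (n + 1)) (AlgebraicClosure K)))
    (τ : AlgebraicClosure K →+* ℂ) : Set (PSpace ℂ m) :=
  {P | P ∈ complexPoints S (τ.comp (algebraMap K (AlgebraicClosure K))) ∧
    ∀ s ∈ g.tuples, ∀ G ∈ p, eval₂ τ (fun c => eval₂ τ P.rep (s c)) G = 0}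

/-- The curve `f` in `X_τ` is contained in a fibre of `g`. -/
def Mor.InFibre (g : Mor K m n S) (τ : AlgebraicClosure K →+* ℂ) (f : ℂ → PSpace ℂ m) : Prop :=
  ∃ w : Fin (n + 1) → ℂ, w ≠ 0 ∧ ∀ z, ∀ s ∈ g.tuples, ∀ c d,
    eval₂ τ (f z).rep (s c) * w d = eval₂ τ (f z).rep (s d) * w c

/-- The closed sets `V(p)`, `p ∈ W`, control the entire curves in `X_τ`: every entire curve in `X_τ` is
contained in the inverse image under `g` of one of the `V(p)`, or in a fibre of `g`; if `g` is finite,
every nonconstant entire curve in `X_τ` is contained in the inverse image of one of the `V(p)`, and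
`X_τ` is Kobayashi hyperbolic if and only if the union of these inverse images is. -/
def Mor.Controls (g : Mor K m n S)
    (W : Set (Ideal (MvPolynomial (Fin (n + 1)) (AlgebraicClosure K))))
    (τ : AlgebraicClosure K →+* ℂ) : Prop :=
  (∀ f : ℂ → PSpace ℂ m, HolomorphicOn f Set.univ →
    (∀ z, f z ∈ complexPoints S (τ.comp (algebraMap K (AlgebraicClosure K)))) →
    (∃ p ∈ W, ∀ z, f z ∈ g.Exc p τ) ∨ g.InFibre τ f) ∧
  (g.Finite → (∀ f : ℂ → PSpace ℂ m, HolomorphicOn f Set.univ →
      (∀ z, f z ∈ complexPoints S (τ.comp (algebraMap K (AlgebraicClosure K)))) →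
      (∃ a b, f a ≠ f b) → ∃ p ∈ W, ∀ z, f z ∈ g.Exc p τ) ∧
    (KobayashiHyperbolic (complexPoints S (τ.comp (algebraMap K (AlgebraicClosure K)))) ↔
      KobayashiHyperbolic (⋃ p ∈ W, g.Exc p τ)))

end

/-- The holomorphic map `f` meets the hypersurface `G = 0` only with multiplicities at least `k` (or is
contained in it): for all holomorphic homogeneous coordinates `φ` of `f` near `z₀`, not all zero at
`z₀`, with `G(φ(z₀)) = 0` the function `G(φ)` has order at least `k` at `z₀`. -/
def Tangent {n : ℕ} (k : ℕ) (f : ℂ → PSpace ℂ n) (G : MvPolynomial (Fin (n + 1)) ℂ) : Prop :=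
  ∀ (z₀ : ℂ) (φ : ℂ → Fin (n + 1) → ℂ), AnalyticAt ℂ φ z₀ → φ z₀ ≠ 0 →
    (∀ᶠ z in nhds z₀, ∃ h : φ z ≠ 0, f z = Projectivization.mk ℂ (φ z) h) →
    eval (φ z₀) G = 0 → (k : ℕ∞) ≤ analyticOrderAt (fun z => eval (φ z) G) z₀

/-- `(s, w)` is a point of the plane cubic `w ^ 2 = s ^ 3 + a * s + b`. -/
def OnCubic {k : Type*} [Field k] (a b s w : k) : Prop := w ^ 2 = s ^ 3 + a * s + b

/-- The value at `(s, w)` of the vector of functions `p i (s) + q i (s) * w`. -/
noncomputable def cubicVal {k : Type*} [Field k] {m : ℕ} (p q : Fin (m + 1) → Polynomial k)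
    (s w : k) : Fin (m + 1) → k := fun i => (p i).eval s + (q i).eval s * w

/-- The projective variety given by `S` contains, over the algebraic closure of `K`, the image of a
plane cubic `w ^ 2 = s ^ 3 + a * s + b` (possibly singular) under a nonconstant map
`(s, w) ↦ [p 0 (s) + q 0 (s) * w : ⋯ : p m (s) + q m (s) * w]`.  Every curve of geometric genus 0
or 1 in it over the algebraic closure is such an image. -/
def CubicImage {K : Type*} [Field K] {m : ℕ} (S : Set (MvPolynomial (Fin (m + 1)) K)) : Prop :=
  ∃ (a b : AlgebraicClosure K) (p q : Fin (m + 1) → Polynomial (AlgebraicClosure K)),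
    (∀ F ∈ S, ∀ s w, OnCubic a b s w → aeval (cubicVal p q s w) F = 0) ∧
    ∃ (i j : Fin (m + 1)) (s w s' w' : AlgebraicClosure K), OnCubic a b s w ∧ OnCubic a b s' w' ∧
      cubicVal p q s w i * cubicVal p q s' w' j ≠ cubicVal p q s w j * cubicVal p q s' w' i

/-- `W` is a finite set of irreducible closed subsets `V(p)` of `V(p₀)`, which are no points and are
obtained from `V(p₀)` by sections of degree at most `δ`, at most `M` of the forms `F j` have small
multiplicities (less than `k j`) on each of them, and for every `τ` every nonconstant entire curve in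
`V(p₀)_τ` which meets all the `F j = 0` only with multiplicities at least `k j` is contained in one of
them. -/
def ExcSets {K : Type} [Field K] {n N : ℕ} (M δ : ℕ)
    (p₀ : Ideal (MvPolynomial (Fin (n + 1)) (AlgebraicClosure K))) (k : Fin (N + 1) → ℕ)
    (F : Fin (N + 1) → MvPolynomial (Fin (n + 1)) (AlgebraicClosure K))
    (W : Set (Ideal (MvPolynomial (Fin (n + 1)) (AlgebraicClosure K)))) : Prop :=
  W.Finite ∧
  (∀ p ∈ W, p.IsPrime ∧ Hmg p ∧ p₀ ≤ p ∧ BySections δ p₀ p ∧ TwoPoints p ∧
    {j | SmallMult (k j) p (F j)}.ncard ≤ M) ∧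
  ∀ (τ : AlgebraicClosure K →+* ℂ) (f : ℂ → PSpace ℂ n), HolomorphicOn f Set.univ →
    (∃ a b, f a ≠ f b) → (∀ z, ∀ G ∈ p₀, eval₂ τ (f z).rep G = 0) →
    (∀ j, Tangent (k j) f (map τ (F j))) → ∃ p ∈ W, ∀ z, ∀ G ∈ p, eval₂ τ (f z).rep G = 0

/-- Half of Lang's equivalence for the projective variety `X` given by `S`: for every embedding `σ` of
`K` the variety `X_σ` is Kobayashi hyperbolic if and only if `X` contains no nonconstant image of a
plane cubic over the algebraic closure of `K`; and if `X(L)` is finite for every finite extension `L` of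
`K`, then `X_σ` is Kobayashi hyperbolic for every `σ`. -/
def HalfLang {K : Type} [Field K] {m : ℕ} (S : Set (MvPolynomial (Fin (m + 1)) K)) : Prop :=
  (∀ σ : K →+* ℂ, KobayashiHyperbolic (complexPoints S σ) ↔ ¬ CubicImage S) ∧
  ((∀ (L : Type) [Field L] [Algebra K L] [FiniteDimensional K L], (points S L).Finite) →
    ∀ σ : K →+* ℂ, KobayashiHyperbolic (complexPoints S σ))

theorem bySections_mono {F : Type} [Field F] {n : ℕ} {δ δ' : ℕ} (h : δ ≤ δ')
    {p₀ p : Ideal (MvPolynomial (Fin (n + 1)) F)} (hp : BySections δ p₀ p) : BySections δ' p₀ p := by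
  obtain ⟨r, q, h1, h2, h3⟩ := hp
  refine ⟨r, q, h1, h2, fun i hi => ?_⟩
  obtain ⟨e, D, a1, a2, a3, a4⟩ := h3 i hi
  exact ⟨e, D, a1.trans h, a2, a3, a4⟩

/-- First part: on the projective space itself (`p = ⊥`) the form `G ≠ 0` has small multiplicities if it
is not divisible by the `k`-th power of an irreducible polynomial; for `k = 2` if it is squarefree.

Second part.  For all `n` and `e₀` there are numbers `N₁` and `δ` with the following property.  Let `K` be
a number field, `Y = V(p₀)` a closed subset of the projective space of dimension `n` over the algebraic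
closure of `K`, `F 0, .., F N` forms over the algebraic closure of `K` of degrees between `1` and `e₀`,
at most `c` of which vanish at any point of `Y`, and `k 0, .., k N` natural numbers.

(A) There are finitely many irreducible closed subsets `V(p)`, `p ∈ W`, of `Y` over the algebraic
closure of `K`, none of them a point, with the following properties.
* Every `V(p)`, `p ∈ W`, is obtained from a component of `Y` by repeatedly replacing a closed set `V` by a
  component of `V ∩ (D = 0)`, `D` a form of degree at most `δ` which is not zero on `V`.  So the degree of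
  `V(p)` is at most `δ ^ n` times the degree of `Y`, for all `K`, `c`, `N`, all the `k j` and all the `F j`.
* For every `p ∈ W` at most `N₁ c` of the forms `F j` have small multiplicities (less than `k j`) on
  `V(p)`.  (If `Y` is irreducible and more than `N₁ c` of the `F j` have small multiplicities on `Y`, for
  example if `Y` is the projective space and more than `N₁ c` of the `F j` are not divisible by a
  `k j`-th power, then all the `V(p)` are different from `Y`.)
* For every embedding `τ` of the algebraic closure of `K` in the field of complex numbers every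
  nonconstant entire curve in `Y_τ` which meets all the hypersurfaces `F j = 0` only with multiplicities
  at least `k j` is contained in one of the `V(p)`, `p ∈ W`.
* Let `X` be any projective variety over `K` (given by the forms in `S`, singular or reducible ones
  included) with a morphism `g` to `Y`, finite or not, for which the pull backs of all the `F j = 0` have
  only multiplicities at least `k j`.  For every `τ` every entire curve in `X_τ` is contained in the
  inverse image of one of the `V(p)`, `p ∈ W`, or in a fibre of `g`.  If `g` is finite, every nonconstant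
  entire curve in `X_τ` is contained in the inverse image of one of the `V(p)`, and `X_τ` is Kobayashi
  hyperbolic if and only if the union of these inverse images is.

(B) Let `X` and `g` be as in (A).  Suppose that `g` is finite or that all the fibres of `g_τ`, for all
`τ`, have dimension at most 1, and that for every closed subset `V(p)` which is obtained from `Y` by
sections of degree at most `δ` and whose inverse image under `g` has dimension at least 2 more than `N₁ c`
of the forms `F j` have small multiplicities on `V(p)`.  Then for every embedding `σ` of `K` the variety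
`X_σ` is Kobayashi hyperbolic if and only if `X` contains no nonconstant image of a plane cubic over the
algebraic closure of `K`; and if `X(L)` is finite for every finite extension `L` of `K`, then `X_σ` is
Kobayashi hyperbolic for every `σ`.
For example, if `X` is a surface and `Y = g(X)`, the condition holds if no component of dimension 2 of `X`
is mapped to a point and more than `N₁ c` of the `F j` have small multiplicities on the image of every such
component.  If `Y` is the projective space, `k j ≥ 2`, the `F j` are general forms and `N` is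
large, then more than `N₁ c` of the `F j` have small multiplicities on all these `V(p)` of positive
dimension, because the `V(p)` form a bounded family which depends only on `n` and `δ`; so then `W` is
empty, and the condition holds for all `X` with a finite morphism to `Y`.

Remark.  For the conclusion that the `V(p)` are different from `Y` the condition on all the components of
`Y ∩ (F j = 0)` can not be replaced by a condition on one of them: let `Y` be the product of two
projective lines, embedded by a divisor of bidegree `(1, 2)`, `k j = 2`, and `F j` linear with the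
divisor `{a j} × P^1 + 2 (P^1 × {b j})` on `Y`, the `a j` and the `b j` different; all the curves
`{x} × P^1` meet all the `F j = 0` only with multiplicity 2 (or are contained in one of them). -/
theorem result :
    (∀ (K : Type) [Field K] (n k : ℕ) (G : MvPolynomial (Fin (n + 1)) K), G ≠ 0 →
      (∀ P : MvPolynomial (Fin (n + 1)) K, Irreducible P → ¬ P ^ k ∣ G) → SmallMult k ⊥ G) ∧
    ∀ n e₀ : ℕ, ∃ N₁ δ : ℕ, ∀ (K : Type) [Field K] [NumberField K] (c N : ℕ)
      (k : Fin (N + 1) → ℕ) (p₀ : Ideal (MvPolynomial (Fin (n + 1)) (AlgebraicClosure K)))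
      (F : Fin (N + 1) → MvPolynomial (Fin (n + 1)) (AlgebraicClosure K)), Hmg p₀ →
      (∀ j, ∃ e, 1 ≤ e ∧ e ≤ e₀ ∧ (F j).IsHomogeneous e) →
      (∀ z : Fin (n + 1) → AlgebraicClosure K, z ≠ 0 → (∀ G ∈ p₀, eval z G = 0) →
        {j | eval z (F j) = 0}.ncard ≤ c) →
      (∃ W, ExcSets (N₁ * c) δ p₀ k F W ∧
        ∀ (m : ℕ) (S : Set (MvPolynomial (Fin (m + 1)) K)), (∀ G ∈ S, ∃ e, G.IsHomogeneous e) →
          ∀ g : Mor K m n S, g.Into p₀ → (∀ j, g.MultGE (k j) (F j)) → ∀ τ, g.Controls W τ) ∧
      ∀ (m : ℕ) (S : Set (MvPolynomial (Fin (m + 1)) K)), (∀ G ∈ S, ∃ e, G.IsHomogeneous e) →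
        ∀ g : Mor K m n S, g.Into p₀ → (∀ j, g.MultGE (k j) (F j)) →
          (g.Finite ∨ ∀ τ w, w ≠ 0 → DimLE (g.Fibre τ w) 1) →
          (∀ p, BySections δ p₀ p → ¬ DimLE (g.Pre p) 1 →
            N₁ * c < {j | SmallMult (k j) p (F j)}.ncard) →
          HalfLang S := by
  refine ⟨fun K _ n k G h0 hG => Pool.MPY.all_LPN K n k G h0 hG, fun n e₀ => ?_⟩
  obtain ⟨N₁, δ₁, h1⟩ := Pool.MPY.all_Z1R n e₀
  obtain ⟨N₂, δ₂, h2⟩ := Pool.MPY.all_Z2R n e₀
  refine ⟨max N₁ N₂, max δ₁ δ₂, fun K _ _ c N k p₀ F hp₀ hF hc => ⟨?_, ?_⟩⟩
  · obtain ⟨W, hW, h3, h4, h5⟩ := h1 K c N k p₀ F hp₀ hF hc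
    refine ⟨W, ⟨hW, fun p hp => ?_, fun τ f hf hne hz ht => h4 τ f hf hz ht hne⟩,
      fun m S hS g hg hm τ => ?_⟩
    · obtain ⟨⟨a1, a2, a3, a4, a5⟩, a6⟩ := h3 p hp
      exact ⟨a1, a2, a3, bySections_mono (le_max_left _ _) a4, a6,
        le_trans a5 (Nat.mul_le_mul_right _ (le_max_left _ _))⟩
    · let g' : Pool.ThmP.Mor K (AlgebraicClosure K) m n S :=
        ⟨g.tuples, g.homogeneous, g.compatible, g.defined⟩
      have hg' : Pool.MPY.Into g' p₀ := hg
      have hm' : ∀ j, Pool.ThmP.FullF g' (k j) (F j) := hm
      exact h5 m S hS g' hg' hm' τ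
  · intro m S hS g hg hm hfib hlow
    let g' : Pool.ThmP.Mor K (AlgebraicClosure K) m n S :=
      ⟨g.tuples, g.homogeneous, g.compatible, g.defined⟩
    have hg' : Pool.MPY.Into g' p₀ := hg
    have hm' : ∀ j, Pool.ThmP.FullF g' (k j) (F j) := hm
    have hfib' : g'.Finite ∨ Pool.MPY.DimFib g' 1 := by
      rcases hfib with h6 | h6
      · exact Or.inl h6
      · refine Or.inr fun τ w hw r => ?_
        obtain ⟨e, R, a1, a2, a3⟩ := h6 τ w hw r
        exact ⟨e, R, a1, a2, fun v hv hv' => a3 v ⟨hv, hv'⟩⟩
    have hlow' : ∀ p : Ideal (MvPolynomial (Fin (n + 1)) (AlgebraicClosure K)), p.IsPrime →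
        Pool.MPY.Hmg p → p₀ ≤ p → Pool.MPY.SectOf δ₂ p₀ p → ¬ Pool.MPY.DimPre g' p 1 →
        N₂ * c < {j | Pool.MPY.Low (k j) p (F j)}.ncard := by
      intro p _ _ _ a3 a4
      refine lt_of_le_of_lt (Nat.mul_le_mul_right _ (le_max_right _ _))
        (hlow p (bySections_mono (le_max_right _ _) a3) fun h => a4 fun r => ?_)
      obtain ⟨e, R, b1, b2, b3⟩ := h r
      exact ⟨e, R, b1, b2, fun v hv hv' => b3 v ⟨hv, hv'⟩⟩
    obtain ⟨h7, h8⟩ := h2 K c N k p₀ F hp₀ hF hc m S hS g' hg' hm' hfib' hlow'
    refine ⟨h7, fun hL σ => (h7 σ).2 fun hC => ?_⟩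
    obtain ⟨L, i1, i2, i3, hinf⟩ := h8 hC
    exact hinf (hL L)

end Pool.Agent.Results.MP_f82ddf_nt.ExceptionalSubvarieties
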