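import Pool.Agent.Work.MP_f82ddf_P.All4

/-!
# Entire curves in projective space which are tangent to many generic hypersurfaces are constant;
varieties with a morphism to projective space which is ramified over generic hypersurfaces
-/

open MvPolynomial
open Pool.Agent.Work.MP_f82ddf_nt

namespace Pool.Agent.Results.MP_f82ddf_nt.GenericRamification

section Morphisms

/-- `v` is a point with coordinates in `Ω` of the affine cone over the projective variety `X` which
is given by `S`. -/
def OnX {K Ω : Type} [Field K] [Field Ω] [Algebra K Ω] {m : ℕ}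
    (S : Set (MvPolynomial (Fin (m + 1)) K)) (v : Fin (m + 1) → Ω) : Prop :=
  ∀ F ∈ S, aeval v F = 0

/-- A morphism, defined over `Ω`, from the projective variety `X` which is given by `S` to the
projective space of dimension `n`: a set of tuples of forms, the forms of a tuple having the same
degree, such that any two tuples are proportional at every point of `X` and at every point of `X`
one of the tuples is not zero. -/
structure Mor (K Ω : Type) [Field K] [Field Ω] [Algebra K Ω] (m n : ℕ)
    (S : Set (MvPolynomial (Fin (m + 1)) K)) where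
  tuples : Set (Fin (n + 1) → MvPolynomial (Fin (m + 1)) Ω)
  homogeneous : ∀ s ∈ tuples, ∃ e, ∀ c, (s c).IsHomogeneous e
  compatible : ∀ s ∈ tuples, ∀ t ∈ tuples, ∀ v : Fin (m + 1) → Ω, OnX S v →
    ∀ c d, eval v (s c) * eval v (t d) = eval v (s d) * eval v (t c)
  defined : ∀ v : Fin (m + 1) → Ω, v ≠ 0 → OnX S v → ∃ s ∈ tuples, ∃ c, eval v (s c) ≠ 0

variable {K Ω : Type} [Field K] [Field Ω] [Algebra K Ω] {m n : ℕ}
  {S : Set (MvPolynomial (Fin (m + 1)) K)}

/-- The morphism `g` has finite fibres (so it is a finite morphism, `X` being projective): for every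
point `w` of the projective space there are only finitely many points of `X` mapped to `w`. -/
def Mor.Finite (g : Mor K Ω m n S) : Prop :=
  ∀ w : Fin (n + 1) → Ω, w ≠ 0 →
    {P : PSpace Ω m | OnX S P.rep ∧ ∀ s ∈ g.tuples, ∀ c d,
      eval P.rep (s c) * w d = eval P.rep (s d) * w c}.Finite

/-- The pull back under `g` of the hypersurface `F = 0` has multiplicities at least `k`: near every
point `v` of `X` it is, up to a unit, a product of powers with exponents at least `k`.  For some tuple
`s` of `g`, not zero at `v`, and forms `a`, `b i`, with `a` not zero at `v`, the equation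
`a * F(s) = ∏ i, b i ^ μ i`, `k ≤ μ i`, holds on `X`.  (For a smooth variety `X`: every component of the
pull back has multiplicity at least `k`.) -/
def Mor.Full (g : Mor K Ω m n S) (k : ℕ) (F : MvPolynomial (Fin (n + 1)) Ω) : Prop :=
  ∀ v : Fin (m + 1) → Ω, v ≠ 0 → OnX S v →
    ∃ s ∈ g.tuples, (∃ c, eval v (s c) ≠ 0) ∧
      ∃ (d t : ℕ) (a : MvPolynomial (Fin (m + 1)) Ω) (b : Fin t → MvPolynomial (Fin (m + 1)) Ω)
        (e μ : Fin t → ℕ), a.IsHomogeneous d ∧ (∀ i, (b i).IsHomogeneous (e i)) ∧
        (∀ i, k ≤ μ i) ∧ eval v a ≠ 0 ∧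
        ∀ u, OnX S u → eval u a * eval (fun c => eval u (s c)) F = ∏ i, eval u (b i) ^ μ i

/-- The fibres of `g` over all the complex points `w` of the projective space have dimension at most
`d`: any `d + 2` homogeneous coordinates satisfy a homogeneous relation on the fibre. -/
def Mor.FibresLE (g : Mor K Ω m n S) (d : ℕ) : Prop :=
  ∀ (τ : Ω →+* ℂ) (w : Fin (n + 1) → ℂ), w ≠ 0 → ∀ r : Fin (d + 2) → Fin (m + 1),
    ∃ (e : ℕ) (R : MvPolynomial (Fin (d + 2)) ℂ), R ≠ 0 ∧ R.IsHomogeneous e ∧
      ∀ p : PSpace ℂ m, p ∈ complexPoints S (τ.comp (algebraMap K Ω)) →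
        (∀ s ∈ g.tuples, ∀ c c', eval₂ τ p.rep (s c) * w c' = eval₂ τ p.rep (s c') * w c) →
        eval (fun i => p.rep (r i)) R = 0

end Morphisms

/-- The map `f` to projective space meets the hypersurface `G = 0` at every point with multiplicity at
least 2 (or is contained in it): for all holomorphic homogeneous coordinates `φ` of `f` near `z₀`,
without common zero at `z₀`, the function `G(φ)` has no simple zero at `z₀`. -/
def Tangent {n : ℕ} (f : ℂ → PSpace ℂ n) (G : MvPolynomial (Fin (n + 1)) ℂ) : Prop :=
  ∀ (z₀ : ℂ) (φ : ℂ → Fin (n + 1) → ℂ), AnalyticAt ℂ φ z₀ → φ z₀ ≠ 0 →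
    (∀ᶠ z in nhds z₀, ∃ h : φ z ≠ 0, f z = Projectivization.mk ℂ (φ z) h) →
    analyticOrderAt (fun z => eval (φ z) G) z₀ ≠ 1

/-- `(s, w)` is a point of the plane cubic `w ^ 2 = s ^ 3 + a * s + b`. -/
def OnCubic {k : Type*} [Field k] (a b s w : k) : Prop := w ^ 2 = s ^ 3 + a * s + b

/-- The value at `(s, w)` of the vector of functions `p i (s) + q i (s) * w`. -/
noncomputable def cubicVal {k : Type*} [Field k] {m : ℕ} (p q : Fin (m + 1) → Polynomial k)
    (s w : k) : Fin (m + 1) → k := fun i => (p i).eval s + (q i).eval s * w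

/-- The projective variety given by `S` contains, over the algebraic closure of `K`, the image of a
plane cubic `w ^ 2 = s ^ 3 + a * s + b` (possibly singular) under a nonconstant map
`(s, w) ↦ [p 0 (s) + q 0 (s) * w : ⋯ : p m (s) + q m (s) * w]`.  Every curve of geometric genus 0
or 1 in it over the algebraic closure is such an image. -/
def CubicImage {K : Type*} [Field K] {m : ℕ} (S : Set (MvPolynomial (Fin (m + 1)) K)) : Prop :=
  ∃ (a b : AlgebraicClosure K) (p q : Fin (m + 1) → Polynomial (AlgebraicClosure K)),
    (∀ F ∈ S, ∀ s w, OnCubic a b s w → aeval (cubicVal p q s w) F = 0) ∧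
    ∃ (i j : Fin (m + 1)) (s w s' w' : AlgebraicClosure K), OnCubic a b s w ∧ OnCubic a b s' w' ∧
      cubicVal p q s w i * cubicVal p q s' w' j ≠ cubicVal p q s w j * cubicVal p q s' w' i

/-- The forms `F j` of degree `e`, as points of the space of all forms of degree `e` (with the
coefficients as coordinates), are not on a hypersurface of degree at most `D`. -/
def NoHypersurface {Ω : Type} [Field Ω] {n N : ℕ} (D e : ℕ)
    (F : Fin (N + 1) → MvPolynomial (Fin (n + 1)) Ω) : Prop :=
  ∀ (t : ℕ) (P : MvPolynomial {μ : Fin (n + 1) →₀ ℕ // ∑ i, μ i = e} Ω), t ≤ D →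
    P.IsHomogeneous t → P ≠ 0 → ∃ j, eval (fun μ => coeff μ.1 (F j)) P ≠ 0

open Pool.ThmM0 Pool.ThmP in
/-- For all `n` and `e ≥ 1` there is a number `D` with the following property.
* Let `F_0, .., F_N` be complex forms of degree `e` in `n + 1` variables, not on a hypersurface of
  degree at most `D` in the space of such forms.  Then every entire curve in the projective space
  of dimension `n` which meets all the hypersurfaces `F_j = 0` only with multiplicities at least `2` (or
  is contained in them) is constant.
* Let `X` be a projective variety over a field `K` of characteristic `0` (given by the forms in `S`,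
  singular or reducible ones included), `g` a morphism from `X` to the projective space of dimension
  `n` (`X` need not be of dimension `n`) and `F_0, .., F_N` forms of degree `e`, over the algebraic
  closure of `K`, not on a hypersurface of degree at most `D`, such that the pull backs under `g` of all
  the hypersurfaces `F_j = 0` have multiplicities at least `2`.  Then every entire curve in `X_τ` lies in
  a fibre of `g`.  If `g` is finite, then `X_σ` is Kobayashi hyperbolic for every embedding `σ` of `K` in
  the field of complex numbers.  If the fibres of `g` have dimension at most `1` and `K` is a number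
  field, then for every `σ` the variety `X_σ` is Kobayashi hyperbolic if and only if `X` contains no
  nonconstant image of a plane cubic over the algebraic closure of `K`, and if `X(L)` is finite for all
  finite extensions `L` of `K`, then `X_σ` is Kobayashi hyperbolic for every `σ`. -/
theorem result :
    ∀ n e : ℕ, 1 ≤ e → ∃ D : ℕ, ∀ (N : ℕ),
      (∀ F : Fin (N + 1) → MvPolynomial (Fin (n + 1)) ℂ, (∀ j, (F j).IsHomogeneous e) →
        NoHypersurface D e F → ∀ f : ℂ → PSpace ℂ n, HolomorphicOn f Set.univ →
        (∀ j, Tangent f (F j)) → ∀ z z', f z = f z') ∧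
      ∀ (K : Type) [Field K] [CharZero K] (m : ℕ) (S : Set (MvPolynomial (Fin (m + 1)) K)),
      (∀ F ∈ S, ∃ d, F.IsHomogeneous d) →
      ∀ (g : Mor K (AlgebraicClosure K) m n S)
        (F : Fin (N + 1) → MvPolynomial (Fin (n + 1)) (AlgebraicClosure K)),
        (∀ j, (F j).IsHomogeneous e) → NoHypersurface D e F → (∀ j, g.Full 2 (F j)) →
        (∀ (τ : AlgebraicClosure K →+* ℂ) (f : ℂ → PSpace ℂ m), HolomorphicOn f Set.univ →
          (∀ z, f z ∈ complexPoints S (τ.comp (algebraMap K (AlgebraicClosure K)))) →
          ∃ w : Fin (n + 1) → ℂ, w ≠ 0 ∧ ∀ z, ∀ s ∈ g.tuples, ∀ c c',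
            eval₂ τ (f z).rep (s c) * w c' = eval₂ τ (f z).rep (s c') * w c) ∧
        (g.Finite → ∀ σ : K →+* ℂ, KobayashiHyperbolic (complexPoints S σ)) ∧
        (g.FibresLE 1 → NumberField K →
          (∀ σ : K →+* ℂ, KobayashiHyperbolic (complexPoints S σ) ↔ ¬ CubicImage S) ∧
          ((∀ (L : Type) [Field L] [Algebra K L] [FiniteDimensional K L],
              (points S L).Finite) →
            ∀ σ : K →+* ℂ, KobayashiHyperbolic (complexPoints S σ))) := by
  intro n e he
  obtain ⟨D₁, h1⟩ := all_CVG n e he
  obtain ⟨D₂, h2⟩ := all_GXC n e he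
  obtain ⟨D₃, h3⟩ := VGF_of p_VER Pool.MPV.all_VG n e he
  obtain ⟨D₄, h4⟩ := all_GXD n e he
  have hmono : ∀ {Ω : Type} [Field Ω] {N : ℕ} {D D' : ℕ} (_ : D ≤ D')
      (F : Fin (N + 1) → MvPolynomial (Fin (n + 1)) Ω), NoHypersurface D' e F →
      NoHypersurfaceF D e F :=
    fun hDD F h t P ht hP hP0 => h t P (ht.trans hDD) hP hP0
  refine ⟨D₁ + D₂ + D₃ + D₄, fun N => ⟨fun F hF hn f hf hfF => ?_,
    fun K _ _ m S hS g F hF hn hfull => ⟨?_, ?_, ?_⟩⟩⟩
  · exact h1 N F hF (hmono (by omega) F hn) f hf hfF
  · exact fun τ f hf hfX => h2 N K (AlgebraicClosure K) m S hS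
      ⟨g.tuples, g.homogeneous, g.compatible, g.defined⟩ F hF (hmono (by omega) F hn) hfull
      τ f hf hfX
  · exact fun hg σ => h3 N K m S hS ⟨g.tuples, g.homogeneous, g.compatible, g.defined⟩ F hg hF
      (hmono (by omega) F hn) hfull σ
  · intro hg hNF
    have hD : DimMer S 1 := h4 N K m S hS ⟨g.tuples, g.homogeneous, g.compatible, g.defined⟩ F hF
      (hmono (by omega) F hn) hfull 1 hg
    have h6 := Pool.MCL.all_P6C K m S hS fun σ x i hi hx =>
      stmt_PAI stmt_DHO K m 1 S le_rfl hD σ x i hi hx
    refine ⟨h6.1, fun hL σ => (h6.1 σ).2 fun hC => ?_⟩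
    obtain ⟨L, i1, i2, i3, hinf⟩ := h6.2 hC
    exact hinf (hL L)

end Pool.Agent.Results.MP_f82ddf_nt.GenericRamification
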