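import Pool.Agent.Work.MP_f82ddf_Q.All

/-!
# Entire curves in varieties with a morphism to projective space which is ramified over many
hypersurfaces, in any position, and half of Lang's equivalence for them
-/

open MvPolynomial
open Pool.Agent.Work.MP_f82ddf_nt

namespace Pool.Agent.Results.MP_f82ddf_nt.RamifiedCovers

/-- `v` is a point with coordinates in `Ω` of the affine cone over the projective variety `X` which
is given by `S`. -/
def OnX {K Ω : Type} [Field K] [Field Ω] [Algebra K Ω] {m : ℕ}
    (S : Set (MvPolynomial (Fin (m + 1)) K)) (v : Fin (m + 1) → Ω) : Prop :=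
  ∀ F ∈ S, aeval v F = 0

/-- A morphism, defined over `Ω`, from the projective variety `X` which is given by `S` to the
projective space of dimension `n`: a set of tuples of forms, the forms of a tuple having the same
degree, such that any two tuples are proportional at every point of `X` and at every point of `X`
one of the tuples is not zero. -/
structure Mor (K Ω : Type) [Field K] [Field Ω] [Algebra K Ω] (m n : ℕ)
    (S : Set (MvPolynomial (Fin (m + 1)) K)) where
  tuples : Set (Fin (n + 1) → MvPolynomial (Fin (m + 1)) Ω)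
  homogeneous : ∀ s ∈ tuples, ∃ e, ∀ c, (s c).IsHomogeneous e
  compatible : ∀ s ∈ tuples, ∀ t ∈ tuples, ∀ v : Fin (m + 1) → Ω, OnX S v →
    ∀ c d, eval v (s c) * eval v (t d) = eval v (s d) * eval v (t c)
  defined : ∀ v : Fin (m + 1) → Ω, v ≠ 0 → OnX S v → ∃ s ∈ tuples, ∃ c, eval v (s c) ≠ 0

/-- The set `Z` of points of the affine cone over a projective space has a Zariski closure of
(projective) dimension less than `s`: any `s + 1` of the homogeneous coordinates satisfy on it a
nontrivial homogeneous relation.  (For `s = 0`: `Z` contains no point different from the vertex.) -/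
def DimLT {Ω : Type} [Field Ω] {n : ℕ} (s : ℕ) (Z : Set (Fin (n + 1) → Ω)) : Prop :=
  ∀ r : Fin (s + 1) → Fin (n + 1), ∃ (e : ℕ) (R : MvPolynomial (Fin (s + 1)) Ω), R ≠ 0 ∧
    R.IsHomogeneous e ∧ ∀ w ∈ Z, eval (fun i => w (r i)) R = 0

variable {K Ω : Type} [Field K] [Field Ω] [Algebra K Ω] {m n : ℕ}
  {S : Set (MvPolynomial (Fin (m + 1)) K)}

/-- The morphism `g` has finite fibres (so it is a finite morphism, `X` being projective): for every
point `w` of the projective space there are only finitely many points of `X` mapped to `w`. -/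
def Mor.Finite (g : Mor K Ω m n S) : Prop :=
  ∀ w : Fin (n + 1) → Ω, w ≠ 0 →
    {P : PSpace Ω m | OnX S P.rep ∧ ∀ s ∈ g.tuples, ∀ c d,
      eval P.rep (s c) * w d = eval P.rep (s d) * w c}.Finite

/-- The pull back under `g` of the hypersurface `F = 0` is locally on `X` defined by `k`-th powers:
near every point `v` of `X`, for some tuple `s` of `g`, not zero at `v`, and forms `a`, `b`, with `a`
not zero at `v`, the equation `a * F(s) = b ^ k` holds on `X`.  (For a normal variety `X`: the pull
back is `k` times a Cartier divisor.) -/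
def Mor.Divisible (g : Mor K Ω m n S) (k : ℕ) (F : MvPolynomial (Fin (n + 1)) Ω) : Prop :=
  ∀ v : Fin (m + 1) → Ω, v ≠ 0 → OnX S v →
    ∃ s ∈ g.tuples, (∃ c, eval v (s c) ≠ 0) ∧
      ∃ (d e : ℕ) (a b : MvPolynomial (Fin (m + 1)) Ω), a.IsHomogeneous d ∧ b.IsHomogeneous e ∧
        eval v a ≠ 0 ∧
        ∀ u, OnX S u → eval u a * eval (fun c => eval u (s c)) F = eval u b ^ k

/-- The common zeros on `g(X)` of the forms `F j`, `j ∈ J`. -/
def Mor.zeros (g : Mor K Ω m n S) {N : ℕ} (F : Fin (N + 1) → MvPolynomial (Fin (n + 1)) Ω)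
    (J : Finset (Fin (N + 1))) : Set (Fin (n + 1) → Ω) :=
  {w | (∃ v, OnX S v ∧ ∃ t ∈ g.tuples, w = fun c => eval v (t c)) ∧ ∀ j ∈ J, eval w (F j) = 0}

/-- The preimages under `g` of the sets `B` of dimension at most `D` have dimension at most `d`.  (For
example `X` is a surface, `D = n - 1`, `d = 1` and `g` maps no two-dimensional component of `X` over `Ω`
into a hypersurface; or `D = 0`, `d = 1` and the fibres of `g` are of dimension at most `1`.) -/
def Mor.Small (g : Mor K Ω m n S) (D d : ℕ) : Prop :=
  ∀ B : Set (Fin (n + 1) → Ω), DimLT (D + 1) B →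
    DimLT (d + 1) {v : Fin (m + 1) → Ω | OnX S v ∧ ∀ t ∈ g.tuples, (fun c => eval v (t c)) ∈ B}

/-- The bound for the dimension in the theorem; `bound n 1 k s = s + (n - s) / k` for `s < n`,
`2 ≤ k`. -/
def bound (n e k s : ℕ) : ℕ := min (n - 1) (s + ((n + e).choose n - 1 - s) / k)

/-- `(s, w)` is a point of the plane cubic `w ^ 2 = s ^ 3 + a * s + b`. -/
def OnCubic {k : Type*} [Field k] (a b s w : k) : Prop := w ^ 2 = s ^ 3 + a * s + b

/-- The value at `(s, w)` of the vector of functions `p i (s) + q i (s) * w`. -/
noncomputable def cubicVal {k : Type*} [Field k] {m : ℕ} (p q : Fin (m + 1) → Polynomial k)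
    (s w : k) : Fin (m + 1) → k := fun i => (p i).eval s + (q i).eval s * w

/-- The projective variety given by `S` contains, over the algebraic closure of `K`, the image of a
plane cubic `w ^ 2 = s ^ 3 + a * s + b` (possibly singular) under a nonconstant map
`(s, w) ↦ [p 0 (s) + q 0 (s) * w : ⋯ : p m (s) + q m (s) * w]`.  Every curve of geometric genus 0
or 1 in it over the algebraic closure is such an image. -/
def CubicImage {K : Type*} [Field K] {m : ℕ} (S : Set (MvPolynomial (Fin (m + 1)) K)) : Prop :=
  ∃ (a b : AlgebraicClosure K) (p q : Fin (m + 1) → Polynomial (AlgebraicClosure K)),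
    (∀ F ∈ S, ∀ s w, OnCubic a b s w → aeval (cubicVal p q s w) F = 0) ∧
    ∃ (i j : Fin (m + 1)) (s w s' w' : AlgebraicClosure K), OnCubic a b s w ∧ OnCubic a b s' w' ∧
      cubicVal p q s w i * cubicVal p q s' w' j ≠ cubicVal p q s w j * cubicVal p q s' w' i

/-- One half of the equivalence of Lang for the projective variety `X` given by `S` over the field
`K`: for every embedding `σ` of `K` in the field of complex numbers `X_σ` is Kobayashi hyperbolic if
and only if `X` contains no nonconstant image of a plane cubic over the algebraic closure of `K` (so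
this does not depend on `σ`), and if `X(L)` is finite for every finite extension `L` of `K`, then
`X_σ` is Kobayashi hyperbolic for every `σ`. -/
def HalfLang (K : Type) [Field K] {m : ℕ} (S : Set (MvPolynomial (Fin (m + 1)) K)) : Prop :=
  (∀ σ : K →+* ℂ, KobayashiHyperbolic (complexPoints S σ) ↔ ¬ CubicImage S) ∧
  ((∀ (L : Type) [Field L] [Algebra K L] [FiniteDimensional K L], (points S L).Finite) →
    ∀ σ : K →+* ℂ, KobayashiHyperbolic (complexPoints S σ))

open Pool.ThmP Pool.ThmQ in
/-- For all `n` and `e` there is a number `N₀` with the following property.  Let `k ≥ 2`, `b ≥ 1` and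
`s < n`, let `X` be a projective variety over a field `K` of characteristic `0` (given by the forms in
`S`, singular or reducible ones included), `g` a morphism from `X` to the projective space of
dimension `n` and `F_0, .., F_N` forms of degrees between `1` and `e` in the coordinates of this space,
all over the algebraic closure of `K`, such that
* the pull backs under `g` of all the `F_j` are locally defined by `k`-th powers,
* at least `N₀ * b` of the `F_j` are not `k`-th powers of forms,
* any `b` of the `F_j` have on `g(X)` common zeros of dimension less than `s` only.  (For `s = 0`: fewer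
  than `b` of the hypersurfaces `F_j = 0` pass through any point of `g(X)`.  For `s = n - 1` it is enough
  that no irreducible form divides `b` of the `F_j`; there is no condition on the position of different
  irreducible hypersurfaces.)
Let `D` be the minimum of `n - 1` and `s + ((n + e).choose n - 1 - s) / k`.  Then
* for every entire curve `f` in `X_τ` the Zariski closure of the image of `g ∘ f` has dimension at
  most `D`,
* if `g` is finite and `d = D`, or if the preimages under `g` of all the closed sets of dimension at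
  most `D` have dimension at most `d`, then every entire curve in `X_σ`, for every embedding `σ` of `K` in
  the field of complex numbers, has a Zariski closure of dimension at most `d`; and if moreover
  `d ≤ 1` and `K` is a number field, then half of the equivalence of Lang holds for `X`
  (`HalfLang`).

For hyperplanes (`e = 1`) this is `D = s + (n - s) / k`, and this bound can not be improved for any
`n`, `s < n` and `k ≥ 2`; more precisely, EVERY projective variety `X` over a field of characteristic `0`
of dimension at most `s + (n - s) / k` has a finite morphism `g` to the projective space of dimension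
`n` such that there are `r + 1` linear forms, not `0`, for any `r`, any `n - s + 1` of which have on
`g(X)` common zeros of dimension less than `s` only, and whose pull backs under `g` are locally
defined by `k`-th powers.  So the last statement of the theorem with `n = 2 * k`, `s = 0`, or with
`n = k + 1`, `s = 1`, in place of `n < 2 * k`, `s = 0`, or `n ≤ k`, `s = 1`, would be half of the equivalence
of Lang for all projective surfaces. -/
theorem result :
    (∀ n e : ℕ, ∃ N₀ : ℕ, ∀ (k N s b : ℕ), 2 ≤ k → s < n → 1 ≤ b →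
      ∀ (K : Type) [Field K] [CharZero K] (m : ℕ) (S : Set (MvPolynomial (Fin (m + 1)) K)),
      (∀ F ∈ S, ∃ d, F.IsHomogeneous d) →
      ∀ (g : Mor K (AlgebraicClosure K) m n S)
        (F : Fin (N + 1) → MvPolynomial (Fin (n + 1)) (AlgebraicClosure K)),
        (∀ j, ∃ d, 1 ≤ d ∧ d ≤ e ∧ (F j).IsHomogeneous d) → (∀ j, g.Divisible k (F j)) →
        N₀ * b ≤ {j | ¬ ∃ G, F j = G ^ k}.ncard →
        (∀ J : Finset (Fin (N + 1)), b ≤ J.card → DimLT s (g.zeros F J)) →
        (∀ (τ : AlgebraicClosure K →+* ℂ) (f : ℂ → PSpace ℂ m), HolomorphicOn f Set.univ →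
          (∀ z, f z ∈ complexPoints S (τ.comp (algebraMap K (AlgebraicClosure K)))) →
          DimLT (bound n e k s + 1)
            {w : Fin (n + 1) → ℂ | ∃ z, ∃ t ∈ g.tuples, w = fun c => eval₂ τ (f z).rep (t c)}) ∧
        ∀ d : ℕ, g.Finite ∧ d = bound n e k s ∨ g.Small (bound n e k s) d →
          (∀ (σ : K →+* ℂ) (f : ℂ → PSpace ℂ m), HolomorphicOn f Set.univ →
            (∀ z, f z ∈ complexPoints S σ) → DimLT (d + 1) (Set.range fun z => (f z).rep)) ∧
          (d ≤ 1 → NumberField K → HalfLang K S)) ∧
    ∀ (n s r k : ℕ), 2 ≤ k → s < n → ∀ (K : Type) [Field K] [CharZero K] (m : ℕ)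
      (S : Set (MvPolynomial (Fin (m + 1)) K)), (∀ F ∈ S, ∃ d, F.IsHomogeneous d) →
      DimLT (s + (n - s) / k + 1) {v : Fin (m + 1) → AlgebraicClosure K | OnX S v} →
      ∃ (g : Mor K (AlgebraicClosure K) m n S)
        (F : Fin (r + 1) → MvPolynomial (Fin (n + 1)) (AlgebraicClosure K)),
        g.Finite ∧ (∀ j, (F j).IsHomogeneous 1) ∧ (∀ j, ¬ ∃ G, F j = G ^ k) ∧
        (∀ j, g.Divisible k (F j)) ∧
        ∀ J : Finset (Fin (r + 1)), n - s < J.card → DimLT s (g.zeros F J) := by
  have hcrit : ∀ (K : Type) [Field K] [CharZero K] (m d : ℕ)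
      (S : Set (MvPolynomial (Fin (m + 1)) K)), (∀ F ∈ S, ∃ d, F.IsHomogeneous d) → d ≤ 1 →
      Pool.ThmM0.DimMer S d → NumberField K → HalfLang K S := by
    intro K _ _ m d S hS hd hD hNF
    have h6 := Pool.MCL.all_P6C K m S hS fun σ x i hi hx =>
      Pool.ThmM0.stmt_PAI Pool.ThmM0.stmt_DHO K m d S hd hD σ x i hi hx
    refine ⟨h6.1, fun hL σ => (h6.1 σ).2 fun hC => ?_⟩
    obtain ⟨L, i1, i2, i3, hinf⟩ := h6.2 hC
    exact hinf (hL L)
  refine ⟨fun n e => ?_, fun n s r k hk hs K _ _ m S hS hd => ?_⟩
  · obtain ⟨N₁, h1⟩ := all_UCV n e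
    obtain ⟨N₂, h2⟩ := all_UFN n e
    refine ⟨N₁ + N₂, fun k N s b hk hs hb K _ _ m S hS g F hF hdiv hN hJ => ⟨?_, fun d hd => ?_⟩⟩
    · intro τ f hf hfX
      exact h1 k N s b hk hs hb K (AlgebraicClosure K) m S hS
        ⟨g.tuples, g.homogeneous, g.compatible, g.defined⟩ F hF hJ hdiv
        ((Nat.mul_le_mul_right b (Nat.le_add_right _ _)).trans hN) τ f hf hfX
    · have hD := h2 k N s b hk hs hb K m d S hS
        ⟨g.tuples, g.homogeneous, g.compatible, g.defined⟩ F hF hJ hdiv
        ((Nat.mul_le_mul_right b (Nat.le_add_left _ _)).trans hN) hd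
      refine ⟨fun σ f hf hfX r => ?_, fun hd1 hNF => hcrit K m d S hS hd1 hD hNF⟩
      obtain ⟨t, R, hR, ht, h3⟩ := Pool.ThmM0.stmt_IMG Pool.ThmM0.stmt_MREL K m d S hS hD σ f hf hfX r
      exact ⟨t, R, hR, ht, by rintro _ ⟨z, rfl⟩; exact h3 z⟩
  · obtain ⟨g, F, h1, h2, h3, h4, h5⟩ := all_EVY n s r k hk hs K m S hS hd
    refine ⟨⟨g.tuples, g.homogeneous, g.compatible, g.defined⟩, F, h1, h2, h3, h4, fun J hJ ρ => ?_⟩
    obtain ⟨t, R, hR, ht, h6⟩ := h5 J hJ ρ
    exact ⟨t, R, hR, ht, fun w hw => h6 w hw.2⟩

end Pool.Agent.Results.MP_f82ddf_nt.RamifiedCovers
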